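import Mathlib

/-!
Formulas of set theory, satisfaction in a class, transitive class models of ZFC, and a small
calculus of definable relations.
-/

namespace R330.Roth

open ZFSet

universe u

/-- Formulas of the language of set theory (one binary relation symbol), with variables
`x_0, x_1, ...`. The constructor `ex i φ` is the quantifier `∃ x_i, φ`. -/
inductive Fml : Type
  | mem (i j : ℕ) : Fml
  | eq (i j : ℕ) : Fml
  | neg (φ : Fml) : Fml
  | and (φ ψ : Fml) : Fml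
  | ex (i : ℕ) (φ : Fml) : Fml

/-- `Sat M v φ`: the structure `(M, ∈)` satisfies `φ` when the variable `x_i` has the value `v i`.
Here `M` is a class of sets. -/
def Sat (M : Set ZFSet.{u}) : (ℕ → ZFSet.{u}) → Fml → Prop
  | v, .mem i j => v i ∈ v j
  | v, .eq i j => v i = v j
  | v, .neg φ => ¬ Sat M v φ
  | v, .and φ ψ => Sat M v φ ∧ Sat M v ψ
  | v, .ex i φ => ∃ a ∈ M, Sat M (Function.update v i a) φ

/-- `M` is a transitive class and the structure `(M, ∈)` satisfies every axiom of ZFC. -/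
structure ModelsZFC (M : Set ZFSet.{u}) : Prop where
  transitive : ∀ x ∈ M, ∀ y ∈ x, y ∈ M
  extensionality : ∀ x ∈ M, ∀ y ∈ M, (∀ z ∈ M, z ∈ x ↔ z ∈ y) → x = y
  foundation : ∀ x ∈ M, (∃ y ∈ M, y ∈ x) → ∃ y ∈ M, y ∈ x ∧ ∀ z ∈ M, ¬ (z ∈ y ∧ z ∈ x)
  pairing : ∀ x ∈ M, ∀ y ∈ M, ∃ z ∈ M, ∀ w ∈ M, w ∈ z ↔ w = x ∨ w = y
  union : ∀ x ∈ M, ∃ z ∈ M, ∀ w ∈ M, w ∈ z ↔ ∃ y ∈ M, y ∈ x ∧ w ∈ y
  power : ∀ x ∈ M, ∃ z ∈ M, ∀ w ∈ M, w ∈ z ↔ ∀ y ∈ M, y ∈ w → y ∈ x
  infinity : ∃ z ∈ M, (∃ x ∈ M, x ∈ z ∧ ∀ y ∈ M, y ∉ x) ∧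
    ∀ x ∈ M, x ∈ z → ∃ y ∈ M, y ∈ z ∧ ∀ w ∈ M, w ∈ y ↔ w ∈ x ∨ w = x
  separation : ∀ (φ : Fml) (v : ℕ → ZFSet.{u}), (∀ i, v i ∈ M) → ∀ a ∈ M, ∃ b ∈ M, ∀ z ∈ M,
    z ∈ b ↔ z ∈ a ∧ Sat M (Function.update v 0 z) φ
  replacement : ∀ (φ : Fml) (v : ℕ → ZFSet.{u}), (∀ i, v i ∈ M) → ∀ a ∈ M,
    (∀ x ∈ M, x ∈ a → ∃ y ∈ M, ∀ y' ∈ M,
      Sat M (Function.update (Function.update v 0 x) 1 y') φ ↔ y' = y) →
    ∃ b ∈ M, ∀ y ∈ M, y ∈ b ↔
      ∃ x ∈ M, x ∈ a ∧ Sat M (Function.update (Function.update v 0 x) 1 y) φ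
  choice : ∀ a ∈ M, (∀ x ∈ M, x ∈ a → ∃ y ∈ M, y ∈ x) →
    (∀ x ∈ M, ∀ y ∈ M, x ∈ a → y ∈ a → (∃ z ∈ M, z ∈ x ∧ z ∈ y) → x = y) →
    ∃ c ∈ M, ∀ x ∈ M, x ∈ a → ∃ y ∈ M, ∀ z ∈ M, (z ∈ x ∧ z ∈ c) ↔ z = y

/-- A relation on assignments is definable over the class `M` by one formula. -/
def Dfn (M : Set ZFSet.{u}) (A : (ℕ → ZFSet.{u}) → Prop) : Prop :=
  ∀ f : ℕ → ℕ, (Set.range f)ᶜ.Infinite → ∃ φ : Fml, ∀ s : ℕ → ZFSet.{u},
    (∀ i, s i ∈ M) → (Sat M s φ ↔ A (fun i => s (f i)))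

variable {M : Set ZFSet.{u}}

theorem Dfn.congr {A B : (ℕ → ZFSet.{u}) → Prop} (h : Dfn M A)
    (e : ∀ v, A v ↔ B v) : Dfn M B := by
  have : A = B := by ext v; exact e v
  exact this ▸ h

/-- Congruence restricted to assignments with values in the class. -/
theorem Dfn.congr' {A B : (ℕ → ZFSet.{u}) → Prop} (h : Dfn M A)
    (e : ∀ v : ℕ → ZFSet.{u}, (∀ i, v i ∈ M) → (A v ↔ B v)) : Dfn M B := by
  intro f hf
  obtain ⟨φ, hφ⟩ := h f hf
  refine ⟨φ, fun s hs => ?_⟩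
  rw [hφ s hs, e _ (fun i => hs _)]

theorem Dfn.mem (i j : ℕ) : Dfn M (fun v => v i ∈ v j) :=
  fun f _ => ⟨.mem (f i) (f j), fun _ _ => Iff.rfl⟩

theorem Dfn.eq (i j : ℕ) : Dfn M (fun v => v i = v j) :=
  fun f _ => ⟨.eq (f i) (f j), fun _ _ => Iff.rfl⟩

theorem Dfn.not {A : (ℕ → ZFSet.{u}) → Prop} (h : Dfn M A) : Dfn M (fun v => ¬ A v) := by
  intro f hf
  obtain ⟨φ, hφ⟩ := h f hf
  exact ⟨.neg φ, fun s hs => not_congr (hφ s hs)⟩

theorem Dfn.and {A B : (ℕ → ZFSet.{u}) → Prop} (h : Dfn M A) (h' : Dfn M B) :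
    Dfn M (fun v => A v ∧ B v) := by
  intro f hf
  obtain ⟨φ, hφ⟩ := h f hf
  obtain ⟨ψ, hψ⟩ := h' f hf
  exact ⟨.and φ ψ, fun s hs => and_congr (hφ s hs) (hψ s hs)⟩

theorem Dfn.or {A B : (ℕ → ZFSet.{u}) → Prop} (h : Dfn M A) (h' : Dfn M B) :
    Dfn M (fun v => A v ∨ B v) :=
  ((h.not.and h'.not).not).congr fun v => by tauto

theorem Dfn.imp {A B : (ℕ → ZFSet.{u}) → Prop} (h : Dfn M A) (h' : Dfn M B) :
    Dfn M (fun v => A v → B v) :=
  ((h.and h'.not).not).congr fun v => by tauto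

theorem Dfn.iff {A B : (ℕ → ZFSet.{u}) → Prop} (h : Dfn M A) (h' : Dfn M B) :
    Dfn M (fun v => (A v ↔ B v)) :=
  ((h.imp h').and (h'.imp h)).congr fun v => by tauto

/-- Existential quantifiers over the class. -/
theorem Dfn.ex {A : ZFSet.{u} → (ℕ → ZFSet.{u}) → Prop}
    (h : Dfn M (fun w => A (w 0) (fun n => w (n + 1)))) :
    Dfn M (fun v => ∃ a ∈ M, A a v) := by
  intro f hf
  obtain ⟨k, hk⟩ := hf.nonempty
  have hk' : ∀ n, f n ≠ k := fun n hn => hk ⟨n, hn⟩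
  let f' : ℕ → ℕ := fun n => Nat.casesOn n k f
  have hf' : (Set.range f')ᶜ.Infinite := by
    have : (Set.range f)ᶜ \ {k} ⊆ (Set.range f')ᶜ := by
      rintro x ⟨hx, hx'⟩ ⟨n, rfl⟩
      cases n with
      | zero => exact hx' rfl
      | succ n => exact hx ⟨n, rfl⟩
    exact (hf.sdiff (Set.finite_singleton k)).mono this
  obtain ⟨φ, hφ⟩ := h f' hf'
  refine ⟨.ex k φ, fun s hs => ?_⟩
  have key : ∀ a ∈ M, (Sat M (Function.update s k a) φ ↔ A a (fun i => s (f i))) := by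
    intro a ha
    have hs' : ∀ i, Function.update s k a i ∈ M := by
      intro i
      by_cases hi : i = k
      · subst hi; simpa using ha
      · simpa [hi] using hs i
    refine (hφ _ hs').trans ?_
    have e1 : Function.update s k a (f' 0) = a := by simp [f']
    have e2 : (fun n => Function.update s k a (f' (n + 1))) = fun i => s (f i) := by
      funext n
      simp [f', Function.update_of_ne (hk' n)]
    show A (Function.update s k a (f' 0)) (fun n => Function.update s k a (f' (n + 1))) ↔ _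
    rw [e1, e2]
  constructor
  · rintro ⟨a, ha, h1⟩
    exact ⟨a, ha, (key a ha).1 h1⟩
  · rintro ⟨a, ha, h2⟩
    exact ⟨a, ha, (key a ha).2 h2⟩

theorem Dfn.all {A : ZFSet.{u} → (ℕ → ZFSet.{u}) → Prop}
    (h : Dfn M (fun w => A (w 0) (fun n => w (n + 1)))) :
    Dfn M (fun v => ∀ a ∈ M, A a v) :=
  ((Dfn.ex (A := fun a v => ¬ A a v) h.not).not).congr fun v => by push Not; exact Iff.rfl

/-! ### Consequences of the axioms for a transitive class model -/

theorem ModelsZFC.upair_mem (hM : ModelsZFC M) {x y : ZFSet.{u}} (hx : x ∈ M) (hy : y ∈ M) :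
    ({x, y} : ZFSet.{u}) ∈ M := by
  obtain ⟨z, hz, h⟩ := hM.pairing x hx y hy
  have : z = {x, y} := by
    ext w
    rw [mem_pair]
    constructor
    · intro hw
      exact (h w (hM.transitive z hz w hw)).1 hw
    · intro hw
      have hwM : w ∈ M := by rcases hw with rfl | rfl <;> assumption
      exact (h w hwM).2 hw
  exact this ▸ hz

theorem ModelsZFC.singleton_mem (hM : ModelsZFC M) {x : ZFSet.{u}} (hx : x ∈ M) :
    ({x} : ZFSet.{u}) ∈ M := by
  have := hM.upair_mem hx hx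
  rwa [pair_eq_singleton] at this

theorem ModelsZFC.sUnion_mem (hM : ModelsZFC M) {x : ZFSet.{u}} (hx : x ∈ M) :
    (⋃₀ x : ZFSet.{u}) ∈ M := by
  obtain ⟨z, hz, h⟩ := hM.union x hx
  have : z = ⋃₀ x := by
    ext w
    rw [mem_sUnion]
    constructor
    · intro hw
      obtain ⟨y, _, hy, hwy⟩ := (h w (hM.transitive z hz w hw)).1 hw
      exact ⟨y, hy, hwy⟩
    · rintro ⟨y, hy, hwy⟩
      have hyM := hM.transitive x hx y hy
      exact (h w (hM.transitive y hyM w hwy)).2 ⟨y, hyM, hy, hwy⟩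
  exact this ▸ hz

theorem ModelsZFC.pair_mem (hM : ModelsZFC M) {x y : ZFSet.{u}} (hx : x ∈ M) (hy : y ∈ M) :
    pair x y ∈ M :=
  hM.upair_mem (hM.singleton_mem hx) (hM.upair_mem hx hy)

theorem ModelsZFC.union_mem (hM : ModelsZFC M) {x y : ZFSet.{u}} (hx : x ∈ M) (hy : y ∈ M) :
    x ∪ y ∈ M := by
  have h := hM.sUnion_mem (hM.upair_mem hx hy)
  have : (⋃₀ ({x, y} : ZFSet.{u}) : ZFSet.{u}) = x ∪ y := by
    ext w; simp
  exact this ▸ h

theorem ModelsZFC.insert_mem (hM : ModelsZFC M) {x y : ZFSet.{u}} (hx : x ∈ M) (hy : y ∈ M) :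
    insert x y ∈ M := by
  have h := hM.union_mem (hM.singleton_mem hx) hy
  rwa [← insert_eq] at h

theorem ModelsZFC.empty_mem (hM : ModelsZFC M) : (∅ : ZFSet.{u}) ∈ M := by
  obtain ⟨z, hz, ⟨x, hx, _, hx'⟩, _⟩ := hM.infinity
  have : x = ∅ := (eq_empty x).2 fun y hy => hx' y (hM.transitive x hx y hy) hy
  exact this ▸ hx

theorem ModelsZFC.of_pair (hM : ModelsZFC M) {x y z : ZFSet.{u}} (hz : z ∈ M)
    (h : pair x y ∈ z) : x ∈ M ∧ y ∈ M := by
  have h1 := hM.transitive z hz _ h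
  have h2 : ({x, y} : ZFSet.{u}) ∈ M := hM.transitive _ h1 _ (by simp [pair])
  exact ⟨hM.transitive _ h2 _ (by simp), hM.transitive _ h2 _ (by simp)⟩

/-- Separation for definable relations. -/
theorem ModelsZFC.sep (hM : ModelsZFC M) {P : ZFSet.{u} → (ℕ → ZFSet.{u}) → Prop}
    (h : Dfn M (fun w => P (w 0) (fun n => w (n + 1)))) (v : ℕ → ZFSet.{u})
    (hv : ∀ i, v i ∈ M) {a : ZFSet.{u}} (ha : a ∈ M) :
    ∃ b ∈ M, ∀ z, z ∈ b ↔ z ∈ a ∧ P z v := by
  have hinf : (Set.range (fun n : ℕ => 2 * n))ᶜ.Infinite := by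
    refine Set.infinite_of_injective_forall_mem (f := fun n : ℕ => 2 * n + 1) ?_ ?_
    · intro a b hab; simpa using hab
    · rintro n ⟨m, hm⟩
      simp only at hm
      omega
  obtain ⟨φ, hφ⟩ := h _ hinf
  obtain ⟨b, hb, h1⟩ := hM.separation φ (fun n => v ((n - 2) / 2)) (fun i => hv _) a ha
  have key : ∀ z ∈ M, (Sat M (Function.update (fun n => v ((n - 2) / 2)) 0 z) φ ↔ P z v) := by
    intro z hz
    rw [hφ _ (by
      intro i
      by_cases hi : i = 0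
      · subst hi; simpa using hz
      · simpa [hi] using hv _)]
    have e1 : (Function.update (fun n => v ((n - 2) / 2)) 0 z) (2 * 0) = z := by simp
    have e2 : (fun n => (Function.update (fun n => v ((n - 2) / 2)) 0 z) (2 * (n + 1))) = v := by
      funext n
      rw [Function.update_of_ne (by omega)]
      congr 1
      omega
    show P (Function.update (fun n => v ((n - 2) / 2)) 0 z (2 * 0))
      (fun n => Function.update (fun n => v ((n - 2) / 2)) 0 z (2 * (n + 1))) ↔ _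
    rw [e1, e2]
  refine ⟨b, hb, fun z => ?_⟩
  constructor
  · intro hz
    have hzM := hM.transitive b hb z hz
    obtain ⟨h2, h3⟩ := (h1 z hzM).1 hz
    exact ⟨h2, (key z hzM).1 h3⟩
  · rintro ⟨h2, h3⟩
    have hzM := hM.transitive a ha z h2
    exact (h1 z hzM).2 ⟨h2, (key z hzM).2 h3⟩

/-- Replacement for definable functions. -/
theorem ModelsZFC.repl (hM : ModelsZFC M) {P : ZFSet.{u} → ZFSet.{u} → (ℕ → ZFSet.{u}) → Prop}
    (h : Dfn M (fun w => P (w 0) (w 1) (fun n => w (n + 2)))) (v : ℕ → ZFSet.{u})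
    (hv : ∀ i, v i ∈ M) {a : ZFSet.{u}} (ha : a ∈ M)
    (hf : ∀ x ∈ a, ∃ y ∈ M, ∀ y' ∈ M, P x y' v ↔ y' = y) :
    ∃ b ∈ M, ∀ y, y ∈ b ↔ y ∈ M ∧ ∃ x ∈ a, P x y v := by
  have hinf : (Set.range (fun n : ℕ => if n ≤ 1 then n else 2 * n))ᶜ.Infinite := by
    refine Set.infinite_of_injective_forall_mem (f := fun n : ℕ => 2 * n + 3) ?_ ?_
    · intro a b hab; simpa using hab
    · rintro n ⟨m, hm⟩
      simp only at hm
      split_ifs at hm <;> omega
  obtain ⟨φ, hφ⟩ := h _ hinf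
  let v' : ℕ → ZFSet.{u} := fun n => v ((n - 4) / 2)
  have hv' : ∀ i, v' i ∈ M := fun i => hv _
  have key : ∀ x ∈ M, ∀ y ∈ M,
      (Sat M (Function.update (Function.update v' 0 x) 1 y) φ ↔ P x y v) := by
    intro x hx y hy
    rw [hφ _ (by
      intro i
      by_cases hi : i = 1
      · subst hi; simpa using hy
      · rw [Function.update_of_ne hi]
        by_cases hi : i = 0
        · subst hi; simpa using hx
        · rw [Function.update_of_ne hi]; exact hv' _)]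
    have e1 : (Function.update (Function.update v' 0 x) 1 y) (if 0 ≤ 1 then 0 else 2 * 0) = x := by
      simp
    have e2 : (Function.update (Function.update v' 0 x) 1 y) (if 1 ≤ 1 then 1 else 2 * 1) = y := by
      simp
    have e3 : (fun n => (Function.update (Function.update v' 0 x) 1 y)
        (if n + 2 ≤ 1 then n + 2 else 2 * (n + 2))) = v := by
      funext n
      rw [if_neg (by omega), Function.update_of_ne (by omega), Function.update_of_ne (by omega)]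
      show v ((2 * (n + 2) - 4) / 2) = v n
      congr 1
      omega
    show P (Function.update (Function.update v' 0 x) 1 y (if 0 ≤ 1 then 0 else 2 * 0))
      (Function.update (Function.update v' 0 x) 1 y (if 1 ≤ 1 then 1 else 2 * 1))
      (fun n => Function.update (Function.update v' 0 x) 1 y
        (if n + 2 ≤ 1 then n + 2 else 2 * (n + 2))) ↔ _
    rw [e1, e2, e3]
  obtain ⟨b, hb, h1⟩ := hM.replacement φ v' hv' a ha (by
    intro x hx hxa
    obtain ⟨y, hy, h2⟩ := hf x hxa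
    refine ⟨y, hy, fun y' hy' => ?_⟩
    rw [key x hx y' hy', h2 y' hy'])
  refine ⟨b, hb, fun y => ?_⟩
  constructor
  · intro hy
    have hyM := hM.transitive b hb y hy
    obtain ⟨x, hx, hxa, h2⟩ := (h1 y hyM).1 hy
    exact ⟨hyM, x, hxa, (key x hx y hyM).1 h2⟩
  · rintro ⟨hyM, x, hxa, h2⟩
    have hxM := hM.transitive a ha x hxa
    exact (h1 y hyM).2 ⟨x, hxM, hxa, (key x hxM y hyM).2 h2⟩

/-! ### Definability of basic relations -/

theorem Dfn.sub (hM : ModelsZFC M) (i j : ℕ) : Dfn M (fun v => v i ⊆ v j) :=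
  (Dfn.all (A := fun a v => a ∈ v i → a ∈ v j)
    ((Dfn.mem 0 (i + 1)).imp (Dfn.mem 0 (j + 1)))).congr' fun v hv => by
      constructor
      · intro h z hz
        exact h z (hM.transitive _ (hv i) z hz) hz
      · intro h z _ hz
        exact h hz

theorem Dfn.nonempty (hM : ModelsZFC M) (i : ℕ) : Dfn M (fun v => ∃ z, z ∈ v i) :=
  (Dfn.ex (A := fun a v => a ∈ v i) (Dfn.mem 0 (i + 1))).congr' fun v hv => by
      constructor
      · rintro ⟨a, _, h⟩
        exact ⟨a, h⟩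
      · rintro ⟨a, h⟩
        exact ⟨a, hM.transitive _ (hv i) a h, h⟩

theorem Dfn.isUpair (hM : ModelsZFC M) (i j k : ℕ) : Dfn M (fun v => v k = {v i, v j}) :=
  (Dfn.all (A := fun a v => (a ∈ v k ↔ (a = v i ∨ a = v j)))
    ((Dfn.mem 0 (k + 1)).iff ((Dfn.eq 0 (i + 1)).or (Dfn.eq 0 (j + 1))))).congr' fun v hv => by
      constructor
      · intro h
        ext z
        rw [mem_pair]
        constructor
        · intro hz
          exact (h z (hM.transitive _ (hv k) z hz)).1 hz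
        · intro hz
          have hzM : z ∈ M := by rcases hz with rfl | rfl; exacts [hv i, hv j]
          exact (h z hzM).2 hz
      · intro h a _
        rw [h, mem_pair]

theorem Dfn.isPair (hM : ModelsZFC M) (i j k : ℕ) : Dfn M (fun v => v k = pair (v i) (v j)) :=
  (Dfn.ex (A := fun a v => ∃ b ∈ M, a = {v i, v i} ∧ b = {v i, v j} ∧ v k = {a, b})
    (Dfn.ex (A := fun b w => w 0 = {w (i + 1), w (i + 1)} ∧ b = {w (i + 1), w (j + 1)} ∧
      w (k + 1) = {w 0, b})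
      ((Dfn.isUpair hM (i + 2) (i + 2) 1).and
        ((Dfn.isUpair hM (i + 2) (j + 2) 0).and (Dfn.isUpair hM 1 0 (k + 2)))))).congr'
    fun v hv => by
      constructor
      · rintro ⟨a, _, b, _, rfl, rfl, h⟩
        rw [h, pair_eq_singleton]
        rfl
      · intro h
        refine ⟨{v i, v i}, hM.upair_mem (hv i) (hv i), {v i, v j}, hM.upair_mem (hv i) (hv j),
          rfl, rfl, ?_⟩
        rw [h, pair_eq_singleton]
        rfl

theorem Dfn.pairMem (hM : ModelsZFC M) (i j k : ℕ) : Dfn M (fun v => pair (v i) (v j) ∈ v k) :=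
  (Dfn.ex (A := fun a v => a = pair (v i) (v j) ∧ a ∈ v k)
    ((Dfn.isPair hM (i + 1) (j + 1) 0).and (Dfn.mem 0 (k + 1)))).congr' fun v hv => by
      constructor
      · rintro ⟨a, _, rfl, h⟩
        exact h
      · intro h
        exact ⟨_, hM.transitive _ (hv k) _ h, rfl, h⟩

/-- `t` has exactly one element more than `s`. -/
def Child (s t : ZFSet.{u}) : Prop := ∃ z, z ∉ s ∧ t = insert z s

theorem Dfn.child (hM : ModelsZFC M) (i j : ℕ) : Dfn M (fun v => Child (v i) (v j)) :=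
  (Dfn.ex (A := fun a v => a ∉ v i ∧ ∀ b ∈ M, (b ∈ v j ↔ (b = a ∨ b ∈ v i)))
    ((Dfn.mem 0 (i + 1)).not.and (Dfn.all (A := fun b w => (b ∈ w (j + 1) ↔ (b = w 0 ∨ b ∈ w (i + 1))))
      ((Dfn.mem 0 (j + 2)).iff ((Dfn.eq 0 1).or (Dfn.mem 0 (i + 2))))))).congr' fun v hv => by
      constructor
      · rintro ⟨a, ha, h1, h2⟩
        refine ⟨a, h1, ?_⟩
        ext b
        rw [mem_insert_iff]
        constructor
        · intro hb
          exact (h2 b (hM.transitive _ (hv j) b hb)).1 hb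
        · intro hb
          have hbM : b ∈ M := by
            rcases hb with rfl | hb
            · exact ha
            · exact hM.transitive _ (hv i) b hb
          exact (h2 b hbM).2 hb
      · rintro ⟨z, hz, h⟩
        refine ⟨z, hM.transitive _ (hv j) z (by rw [h]; exact mem_insert _ _), hz, ?_⟩
        intro b _
        rw [h, mem_insert_iff]

/-- Assignment listing up to four given sets. -/
def asg (a b c d : ZFSet.{u}) : ℕ → ZFSet.{u}
  | 0 => a
  | 1 => b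
  | 2 => c
  | _ => d

theorem asg_mem {a b c d : ZFSet.{u}} (ha : a ∈ M) (hb : b ∈ M) (hc : c ∈ M) (hd : d ∈ M) :
    ∀ i, asg a b c d i ∈ M
  | 0 => ha
  | 1 => hb
  | 2 => hc
  | (_ + 3) => hd

theorem ModelsZFC.sep4 (hM : ModelsZFC M)
    {P : ZFSet.{u} → ZFSet.{u} → ZFSet.{u} → ZFSet.{u} → ZFSet.{u} → Prop}
    (h : Dfn M (fun w => P (w 0) (w 1) (w 2) (w 3) (w 4)))
    {a p q r s : ZFSet.{u}} (ha : a ∈ M) (hp : p ∈ M) (hq : q ∈ M) (hr : r ∈ M) (hs : s ∈ M) :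
    ∃ b ∈ M, ∀ z, z ∈ b ↔ z ∈ a ∧ P z p q r s :=
  hM.sep (P := fun z v => P z (v 0) (v 1) (v 2) (v 3)) h (asg p q r s) (asg_mem hp hq hr hs) ha

theorem ModelsZFC.repl2 (hM : ModelsZFC M)
    {P : ZFSet.{u} → ZFSet.{u} → ZFSet.{u} → ZFSet.{u} → Prop}
    (h : Dfn M (fun w => P (w 0) (w 1) (w 2) (w 3)))
    {a p q : ZFSet.{u}} (ha : a ∈ M) (hp : p ∈ M) (hq : q ∈ M)
    (hf : ∀ x ∈ a, ∃ y ∈ M, ∀ y' ∈ M, P x y' p q ↔ y' = y) :
    ∃ b ∈ M, ∀ y, y ∈ b ↔ y ∈ M ∧ ∃ x ∈ a, P x y p q :=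
  hM.repl (P := fun x y v => P x y (v 0) (v 1)) h (asg p q p q) (asg_mem hp hq hp hq) ha hf

end R330.Roth
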