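import Pool.Agent.R330.RothBase

/-!
The Rothberger game on a space `(X, τ)` inside a transitive class `M`.
-/

namespace R330.Roth

open ZFSet

universe u

/-- The natural number `n` as a von Neumann ordinal. -/
def num : ℕ → ZFSet.{u}
  | 0 => ∅
  | n + 1 => insert (num n) (num n)

/-- The finite sequence `f 0, …, f (n - 1)` as a set: the graph
`{(0, f 0), …, (n - 1, f (n - 1))}`. -/
def seg (f : ℕ → ZFSet.{u}) : ℕ → ZFSet.{u}
  | 0 => ∅
  | n + 1 => insert (pair (num n) (f n)) (seg f n)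

/-- The class `M` satisfies that `τ` is a topology on the set `X`. -/
structure IsTopology (M : Set ZFSet.{u}) (X τ : ZFSet.{u}) : Prop where
  sub : ∀ O ∈ τ, O ⊆ X
  whole : X ∈ τ
  inter : ∀ O ∈ τ, ∀ O' ∈ τ, O ∩ O' ∈ τ
  sUnion : ∀ A ∈ M, A ⊆ τ → (⋃₀ A : ZFSet.{u}) ∈ τ

/-- The class `M` satisfies that `U` is an open cover of `X`, for the family `τ` of open sets. -/
def IsCover (M : Set ZFSet.{u}) (X τ U : ZFSet.{u}) : Prop :=
  U ∈ M ∧ U ⊆ τ ∧ ∀ x ∈ X, ∃ O ∈ U, x ∈ O

/-- The class `M` satisfies that `σ` is a winning strategy for player II in the Rothberger game on `X`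
with the family `τ` of open sets: `σ` is a function defined on the nonempty finite sequences of
open covers (the moves of player I so far), its value is a member of the last cover of the sequence
(the answer of player II), and for every infinite sequence of open covers which belongs to `M` the
answers of player II cover `X`. -/
structure IsWinning (M : Set ZFSet.{u}) (X τ σ : ZFSet.{u}) : Prop where
  dom : ∀ z ∈ σ, ∃ (f : ℕ → ZFSet.{u}) (n : ℕ) (W : ZFSet.{u}),
    (∀ i ≤ n, IsCover M X τ (f i)) ∧ z = pair (seg f (n + 1)) W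
  func : ∀ (f : ℕ → ZFSet.{u}) (n : ℕ), (∀ i ≤ n, IsCover M X τ (f i)) →
    ∃! W, pair (seg f (n + 1)) W ∈ σ
  legal : ∀ (f : ℕ → ZFSet.{u}) (n : ℕ) (W : ZFSet.{u}), (∀ i ≤ n, IsCover M X τ (f i)) →
    pair (seg f (n + 1)) W ∈ σ → W ∈ f n
  win : ∀ f : ℕ → ZFSet.{u}, (∀ i, IsCover M X τ (f i)) →
    (∃ p ∈ M, ∀ z, z ∈ p ↔ ∃ n, z = pair (num n) (f n)) →
    ∀ x ∈ X, ∃ n W, pair (seg f (n + 1)) W ∈ σ ∧ x ∈ W

/-- The class `M` satisfies that player II has a winning strategy in the Rothberger game on `X` with the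
family `τ` of open sets. -/
def TwoWins (M : Set ZFSet.{u}) (X τ : ZFSet.{u}) : Prop := ∃ σ ∈ M, IsWinning M X τ σ

/-- The topology on `X` generated by the base `τ`: the set of all subsets `O` of `X` such that
every point of `O` has a neighbourhood `U ⊆ O` with `U ∈ τ`. -/
def generated (X τ : ZFSet.{u}) : ZFSet.{u} :=
  ZFSet.sep (fun O => ∀ x ∈ O, ∃ U ∈ τ, x ∈ U ∧ U ⊆ O) (powerset X)

/-! ### Codes of sequences -/

theorem num_mem {m n : ℕ} (h : m < n) : num.{u} m ∈ num n := by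
  induction n with
  | zero => omega
  | succ n ih =>
    show num m ∈ insert (num n) (num n)
    rw [mem_insert_iff]
    rcases Nat.lt_succ_iff_lt_or_eq.1 h with h | rfl
    · exact Or.inr (ih h)
    · exact Or.inl rfl

theorem num_inj {m n : ℕ} (h : num.{u} m = num n) : m = n := by
  rcases lt_trichotomy m n with h1 | h1 | h1
  · exact absurd (h ▸ num_mem.{u} h1) (mem_irrefl _)
  · exact h1
  · exact absurd (h ▸ num_mem.{u} h1) (mem_irrefl _)

theorem mem_seg {f : ℕ → ZFSet.{u}} {n : ℕ} {z : ZFSet.{u}} :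
    z ∈ seg f n ↔ ∃ i < n, z = pair (num i) (f i) := by
  induction n with
  | zero => simp [seg]
  | succ n ih =>
    show z ∈ insert (pair (num n) (f n)) (seg f n) ↔ _
    rw [mem_insert_iff, ih]
    constructor
    · rintro (h | ⟨i, hi, h⟩)
      · exact ⟨n, by omega, h⟩
      · exact ⟨i, by omega, h⟩
    · rintro ⟨i, hi, h⟩
      rcases Nat.lt_succ_iff_lt_or_eq.1 hi with hi | rfl
      · exact Or.inr ⟨i, hi, h⟩
      · exact Or.inl h

theorem seg_congr {f g : ℕ → ZFSet.{u}} {n : ℕ} (h : ∀ i < n, f i = g i) : seg f n = seg g n := by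
  ext z
  rw [mem_seg, mem_seg]
  constructor
  · rintro ⟨i, hi, e⟩; exact ⟨i, hi, by rw [e, h i hi]⟩
  · rintro ⟨i, hi, e⟩; exact ⟨i, hi, by rw [e, h i hi]⟩

theorem seg_sub {f g : ℕ → ZFSet.{u}} {n m : ℕ} (h : seg f n ⊆ seg g m) :
    n ≤ m ∧ ∀ i < n, f i = g i := by
  have key : ∀ i < n, i < m ∧ f i = g i := by
    intro i hi
    have : pair (num i) (f i) ∈ seg g m := h (mem_seg.2 ⟨i, hi, rfl⟩)
    obtain ⟨j, hj, e⟩ := mem_seg.1 this
    obtain ⟨e1, e2⟩ := pair_inj.1 e
    have := num_inj e1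
    subst this
    exact ⟨hj, e2⟩
  refine ⟨?_, fun i hi => (key i hi).2⟩
  by_contra hc
  have := (key m (by omega)).1
  omega

theorem seg_sub_of {f g : ℕ → ZFSet.{u}} {n m : ℕ} (h : n ≤ m) (h' : ∀ i < n, f i = g i) :
    seg f n ⊆ seg g m := by
  intro z hz
  obtain ⟨i, hi, e⟩ := mem_seg.1 hz
  exact mem_seg.2 ⟨i, by omega, by rw [e, h' i hi]⟩

theorem seg_inj {f g : ℕ → ZFSet.{u}} {n m : ℕ} (h : seg f n = seg g m) :
    n = m ∧ ∀ i < n, f i = g i := by
  have h1 := seg_sub (f := f) (g := g) (n := n) (m := m) (by rw [h])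
  have h2 := seg_sub (f := g) (g := f) (n := m) (m := n) (by rw [h])
  exact ⟨by omega, h1.2⟩

theorem child_seg {f g : ℕ → ZFSet.{u}} {n m : ℕ} :
    Child (seg f n) (seg g m) ↔ m = n + 1 ∧ ∀ i < n, f i = g i := by
  constructor
  · rintro ⟨z, hz, h⟩
    have hsub : seg f n ⊆ seg g m := by
      rw [h]; intro w hw; exact mem_insert_of_mem _ hw
    obtain ⟨h1, h2⟩ := seg_sub hsub
    refine ⟨?_, h2⟩
    have key : ∀ j < m, n ≤ j → pair (num j) (g j) = z := by
      intro j hj hnj
      have : pair (num j) (g j) ∈ seg g m := mem_seg.2 ⟨j, hj, rfl⟩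
      rw [h, mem_insert_iff] at this
      rcases this with h3 | h3
      · exact h3
      · obtain ⟨i, hi, e⟩ := mem_seg.1 h3
        have := num_inj (pair_inj.1 e).1
        omega
    by_contra hc
    have hz' : z ∈ seg g m := by rw [h]; exact mem_insert _ _
    obtain ⟨j, hj, e⟩ := mem_seg.1 hz'
    have hnj : n ≤ j := by
      by_contra hlt
      exact hz (mem_seg.2 ⟨j, by omega, by rw [e, h2 j (by omega)]⟩)
    have e1 := key n (by omega) le_rfl
    have e2 := key (n + 1) (by omega) (by omega)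
    have := num_inj (pair_inj.1 (e1.trans e2.symm)).1
    omega
  · rintro ⟨rfl, h⟩
    refine ⟨pair (num n) (g n), ?_, ?_⟩
    · intro hc
      obtain ⟨i, hi, e⟩ := mem_seg.1 hc
      have := num_inj (pair_inj.1 e).1
      omega
    · show insert (pair (num n) (g n)) (seg g n) = _
      rw [seg_congr h]

end R330.Roth
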