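import Pool.Agent.R330.RothDefs

/-!
Arguments inside the transitive class model `M`: Galvin's point selection and the absoluteness of
well-foundedness for the tree of sequences of covers avoiding a point.
-/

namespace R330.Roth

open ZFSet

universe u

variable {M : Set ZFSet.{u}} {X τ σ : ZFSet.{u}}

theorem seg_mem (hM : ModelsZFC M) (hσM : σ ∈ M) (hσ : IsWinning M X τ σ)
    {f : ℕ → ZFSet.{u}} {n : ℕ} (hf : ∀ i < n, IsCover M X τ (f i)) : seg f n ∈ M := by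
  cases n with
  | zero => exact hM.empty_mem
  | succ n =>
    obtain ⟨W, hW, _⟩ := hσ.func f n (fun i hi => hf i (by omega))
    exact (hM.of_pair hσM hW).1

/-- Galvin's point selection. -/
theorem galvin (hM : ModelsZFC M) (hτM : τ ∈ M) (hσM : σ ∈ M)
    (hσ : IsWinning M X τ σ) {f : ℕ → ZFSet.{u}} {n : ℕ} (hf : ∀ i < n, IsCover M X τ (f i)) :
    ∃ x ∈ X, ∀ U ∈ τ, x ∈ U → ∃ W, IsCover M X τ W ∧
      ∀ Z, pair (insert (pair (num n) W) (seg f n)) Z ∈ σ → Z ⊆ U := by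
  by_contra hc
  push Not at hc
  have hs := seg_mem hM hσM hσ hf
  obtain ⟨V, hV, hV'⟩ := hM.sep4
    (P := fun U s σ _ _ => ∀ t ∈ M, ∀ Z ∈ M, pair t Z ∈ σ → Child s t → ¬ Z ⊆ U)
    (Dfn.all (A := fun t v => ∀ Z ∈ M, pair t Z ∈ v 2 → Child (v 1) t → ¬ Z ⊆ v 0)
      (Dfn.all (A := fun Z v => pair (v 0) Z ∈ v 3 → Child (v 2) (v 0) → ¬ Z ⊆ v 1)
        ((Dfn.pairMem hM 1 0 4).imp ((Dfn.child hM 3 1).imp (Dfn.sub hM 0 2).not))))
    hτM hs hσM hσM hσM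
  have hcov : IsCover M X τ V := by
    refine ⟨hV, fun U hU => ((hV' U).1 hU).1, fun x hx => ?_⟩
    obtain ⟨U, hU, hxU, h⟩ := hc x hx
    refine ⟨U, (hV' U).2 ⟨hU, ?_⟩, hxU⟩
    intro t _ Z _ htZ hch hZU
    obtain ⟨g, m, W, hg, e⟩ := hσ.dom _ htZ
    obtain ⟨e1, e2⟩ := pair_inj.1 e
    subst e1
    obtain ⟨e3, e4⟩ := child_seg.1 hch
    have e5 : m = n := by omega
    subst e5
    obtain ⟨Z', hZ', hn⟩ := h (g m) (hg m le_rfl)
    have e6 : insert (pair (num m) (g m)) (seg f m) = seg g (m + 1) := by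
      show _ = insert (pair (num m) (g m)) (seg g m)
      rw [seg_congr e4]
    rw [e6] at hZ'
    have e7 := (hσ.func g m hg).unique hZ' htZ
    exact hn (e7 ▸ hZU)
  let f' : ℕ → ZFSet.{u} := Function.update f n V
  have hf' : ∀ i ≤ n, IsCover M X τ (f' i) := by
    intro i hi
    by_cases h : i = n
    · subst h; simpa [f'] using hcov
    · simpa [f', h] using hf i (by omega)
  obtain ⟨Z, hZ, _⟩ := hσ.func f' n hf'
  have hl := hσ.legal f' n Z hf' hZ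
  have hl' : Z ∈ V := by simpa [f'] using hl
  have h1 := ((hV' Z).1 hl').2
  obtain ⟨h2, h3⟩ := hM.of_pair hσM hZ
  refine h1 _ h2 Z h3 hZ ?_ (fun _ h => h)
  refine child_seg.2 ⟨rfl, fun i hi => ?_⟩
  simp [f', Function.update_of_ne (show i ≠ n by omega)]

/-- A set of pairs `(u, a)` in which `a` is the set of the second components of the pairs whose
first component is a child of `u` in `T`. -/
def Exact (R T : ZFSet.{u}) : Prop :=
  ∀ u a, pair u a ∈ R → (∀ u' ∈ T, Child u u' → ∃ b ∈ a, pair u' b ∈ R) ∧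
    (∀ b ∈ a, ∃ u' ∈ T, Child u u' ∧ pair u' b ∈ R)

theorem Dfn.exact (hM : ModelsZFC M) (i j : ℕ) : Dfn M (fun v => Exact (v i) (v j)) :=
  (Dfn.all (A := fun u v => ∀ a ∈ M, pair u a ∈ v i →
      (∀ u' ∈ M, u' ∈ v j → Child u u' → ∃ b ∈ M, b ∈ a ∧ pair u' b ∈ v i) ∧
      (∀ b ∈ M, b ∈ a → ∃ u' ∈ M, u' ∈ v j ∧ Child u u' ∧ pair u' b ∈ v i))
    (Dfn.all (A := fun a v => pair (v 0) a ∈ v (i + 1) →
      (∀ u' ∈ M, u' ∈ v (j + 1) → Child (v 0) u' → ∃ b ∈ M, b ∈ a ∧ pair u' b ∈ v (i + 1)) ∧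
      (∀ b ∈ M, b ∈ a → ∃ u' ∈ M, u' ∈ v (j + 1) ∧ Child (v 0) u' ∧ pair u' b ∈ v (i + 1)))
      ((Dfn.pairMem hM 1 0 (i + 2)).imp
        ((Dfn.all (A := fun u' v => u' ∈ v (j + 2) → Child (v 1) u' →
            ∃ b ∈ M, b ∈ v 0 ∧ pair u' b ∈ v (i + 2))
          ((Dfn.mem 0 (j + 3)).imp ((Dfn.child hM 2 0).imp
            (Dfn.ex (A := fun b v => b ∈ v 1 ∧ pair (v 0) b ∈ v (i + 3))
              ((Dfn.mem 0 2).and (Dfn.pairMem hM 1 0 (i + 4))))))).and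
        (Dfn.all (A := fun b v => b ∈ v 0 →
            ∃ u' ∈ M, u' ∈ v (j + 2) ∧ Child (v 1) u' ∧ pair u' b ∈ v (i + 2))
          ((Dfn.mem 0 1).imp
            (Dfn.ex (A := fun u' v => u' ∈ v (j + 3) ∧ Child (v 2) u' ∧ pair u' (v 0) ∈ v (i + 3))
              ((Dfn.mem 0 (j + 4)).and ((Dfn.child hM 3 0).and
                (Dfn.pairMem hM 0 1 (i + 4))))))))))).congr' fun v hv => by
      constructor
      · intro h u a hua
        obtain ⟨hu, ha⟩ := hM.of_pair (hv i) hua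
        obtain ⟨h1, h2⟩ := h u hu a ha hua
        refine ⟨fun u' hu' hch => ?_, fun b hb => ?_⟩
        · obtain ⟨b, _, hb, hb'⟩ := h1 u' (hM.transitive _ (hv j) _ hu') hu' hch
          exact ⟨b, hb, hb'⟩
        · obtain ⟨u', _, h3, h4, h5⟩ := h2 b (hM.transitive _ ha _ hb) hb
          exact ⟨u', h3, h4, h5⟩
      · intro h u _ a ha hua
        obtain ⟨h1, h2⟩ := h u a hua
        refine ⟨fun u' _ hu' hch => ?_, fun b _ hb => ?_⟩
        · obtain ⟨b, hb, hb'⟩ := h1 u' hu' hch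
          exact ⟨b, hM.transitive _ ha _ hb, hb, hb'⟩
        · obtain ⟨u', h3, h4, h5⟩ := h2 b hb
          exact ⟨u', hM.transitive _ (hv j) _ h3, h3, h4, h5⟩

theorem Exact.uniq {R R' T : ZFSet.{u}} (h : Exact R T) (h' : Exact R' T) (a : ZFSet.{u}) :
    ∀ t a', pair t a ∈ R → pair t a' ∈ R' → a = a' := by
  induction a using ZFSet.inductionOn with
  | _ a ih =>
    intro t a' ht ht'
    ext b
    constructor
    · intro hb
      obtain ⟨u, hu, hch, hub⟩ := (h t a ht).2 b hb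
      obtain ⟨b', hb', hub'⟩ := (h' t a' ht').1 u hu hch
      rw [ih b hb u b' hub hub']
      exact hb'
    · intro hb'
      obtain ⟨u, hu, hch, hub'⟩ := (h' t a' ht').2 b hb'
      obtain ⟨b0, hb0, hub⟩ := (h t a ht).1 u hu hch
      rw [← ih b0 hb0 u b hub hub']
      exact hb0

/-- Well-founded part of the tree `T` in `M`. -/
theorem wf_part (hM : ModelsZFC M) {T : ZFSet.{u}} (hT : T ∈ M) :
    ∃ A ∈ M, (∀ t, t ∈ A ↔ t ∈ T ∧ ∃ a, ∃ R, Exact R T ∧ pair t a ∈ R ∧ R ∈ M) ∧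
      ∀ t ∈ T, (∀ t' ∈ T, Child t t' → t' ∈ A) → t ∈ A := by
  obtain ⟨A, hA, hA'⟩ := hM.sep4
    (P := fun t T _ _ _ => ∃ a ∈ M, ∃ R ∈ M, Exact R T ∧ pair t a ∈ R)
    (Dfn.ex (A := fun a v => ∃ R ∈ M, Exact R (v 1) ∧ pair (v 0) a ∈ R)
      (Dfn.ex (A := fun R v => Exact R (v 2) ∧ pair (v 1) (v 0) ∈ R)
        ((Dfn.exact hM 0 3).and (Dfn.pairMem hM 2 1 0))))
    hT hT hT hT hT
  have hA'' : ∀ t, t ∈ A ↔ t ∈ T ∧ ∃ a, ∃ R, Exact R T ∧ pair t a ∈ R ∧ R ∈ M := by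
    intro t
    rw [hA']
    constructor
    · rintro ⟨h1, a, _, R, hR, h2, h3⟩
      exact ⟨h1, a, R, h2, h3, hR⟩
    · rintro ⟨h1, a, R, h2, h3, hR⟩
      exact ⟨h1, a, (hM.of_pair hR h3).2, R, hR, h2, h3⟩
  refine ⟨A, hA, hA'', ?_⟩
  obtain ⟨S, hS, hS'⟩ := hM.repl2
    (P := fun t z T _ => ∃ a ∈ M, ∃ R ∈ M, z = pair t a ∧ Exact R T ∧ pair t a ∈ R)
    (Dfn.ex (A := fun a v => ∃ R ∈ M, v 1 = pair (v 0) a ∧ Exact R (v 2) ∧ pair (v 0) a ∈ R)
      (Dfn.ex (A := fun R v => v 2 = pair (v 1) (v 0) ∧ Exact R (v 3) ∧ pair (v 1) (v 0) ∈ R)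
        ((Dfn.isPair hM 2 1 3).and ((Dfn.exact hM 0 4).and (Dfn.pairMem hM 2 1 0)))))
    hA hT hT (by
      intro t ht
      obtain ⟨hT1, a, R, h2, h3, hR⟩ := (hA'' t).1 ht
      obtain ⟨htM, haM⟩ := hM.of_pair hR h3
      refine ⟨pair t a, hM.pair_mem htM haM, fun y' _ => ?_⟩
      constructor
      · rintro ⟨a', _, R', hR', rfl, h4, h5⟩
        rw [h2.uniq h4 a t a' h3 h5]
      · rintro rfl
        exact ⟨a, haM, R, hR, rfl, h2, h3⟩)
  have hS1 : ∀ t a, pair t a ∈ S ↔ t ∈ T ∧ ∃ R ∈ M, Exact R T ∧ pair t a ∈ R := by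
    intro t a
    rw [hS']
    constructor
    · rintro ⟨_, t', ht', a', _, R, hR, e, h2, h3⟩
      obtain ⟨rfl, rfl⟩ := pair_inj.1 e
      exact ⟨((hA'' t).1 ht').1, R, hR, h2, h3⟩
    · rintro ⟨h1, R, hR, h2, h3⟩
      obtain ⟨htM, haM⟩ := hM.of_pair hR h3
      exact ⟨hM.pair_mem htM haM, t, (hA'' t).2 ⟨h1, a, R, h2, h3, hR⟩, a, haM, R, hR, rfl, h2, h3⟩
  intro t ht hch
  obtain ⟨a, ha, ha'⟩ := hM.sep4
    (P := fun b t T S _ => ∃ u ∈ M, u ∈ T ∧ Child t u ∧ pair u b ∈ S)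
    (Dfn.ex (A := fun u v => u ∈ v 2 ∧ Child (v 1) u ∧ pair u (v 0) ∈ v 3)
      ((Dfn.mem 0 3).and ((Dfn.child hM 2 0).and (Dfn.pairMem hM 0 1 4))))
    (hM.sUnion_mem (hM.sUnion_mem hS)) (hM.transitive _ hT _ ht) hT hS hS
  have ha'' : ∀ b, b ∈ a ↔ ∃ u ∈ T, Child t u ∧ pair u b ∈ S := by
    intro b
    rw [ha']
    constructor
    · rintro ⟨_, u, _, h1, h2, h3⟩
      exact ⟨u, h1, h2, h3⟩
    · rintro ⟨u, h1, h2, h3⟩
      refine ⟨?_, u, hM.transitive _ hT _ h1, h1, h2, h3⟩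
      rw [mem_sUnion]
      refine ⟨{u, b}, ?_, by simp⟩
      rw [mem_sUnion]
      exact ⟨pair u b, h3, by simp [pair]⟩
  refine (hA'' t).2 ⟨ht, a, insert (pair t a) S, ?_, mem_insert _ _,
    hM.insert_mem (hM.pair_mem (hM.transitive _ hT _ ht) ha) hS⟩
  intro u c huc
  rw [mem_insert_iff] at huc
  rcases huc with huc | huc
  · obtain ⟨rfl, rfl⟩ := pair_inj.1 huc
    refine ⟨fun u' hu' hch' => ?_, fun b hb => ?_⟩
    · obtain ⟨_, b, R, h2, h3, hR⟩ := (hA'' u').1 (hch u' hu' hch')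
      have h4 : pair u' b ∈ S := (hS1 u' b).2 ⟨hu', R, hR, h2, h3⟩
      exact ⟨b, (ha'' b).2 ⟨u', hu', hch', h4⟩, mem_insert_of_mem _ h4⟩
    · obtain ⟨u', h1, h2, h3⟩ := (ha'' b).1 hb
      exact ⟨u', h1, h2, mem_insert_of_mem _ h3⟩
  · obtain ⟨hu, R, hR, h2, h3⟩ := (hS1 u c).1 huc
    refine ⟨fun u' hu' hch' => ?_, fun b hb => ?_⟩
    · obtain ⟨b, hb, hub⟩ := (h2 u c h3).1 u' hu' hch'
      exact ⟨b, hb, mem_insert_of_mem _ ((hS1 u' b).2 ⟨hu', R, hR, h2, hub⟩)⟩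
    · obtain ⟨u', h4, h5, h6⟩ := (h2 u c h3).2 b hb
      exact ⟨u', h4, h5, mem_insert_of_mem _ ((hS1 u' b).2 ⟨h4, R, hR, h2, h6⟩)⟩

/-- A branch of codes in `V` is incompatible with an exact relation. -/
theorem Exact.no_branch {R T : ZFSet.{u}} (h : Exact R T) {g : ℕ → ZFSet.{u}}
    (hg : ∀ n, seg g n ∈ T) (a : ZFSet.{u}) : ∀ n, pair (seg g n) a ∉ R := by
  induction a using ZFSet.inductionOn with
  | _ a ih =>
    intro n hn
    obtain ⟨b, hb, hb'⟩ := (h _ _ hn).1 (seg g (n + 1)) (hg _) (child_seg.2 ⟨rfl, fun _ _ => rfl⟩)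
    exact ih b hb (n + 1) hb'

/-- If the tree `T ∈ M` of (codes of) finite sequences has an infinite branch in `V`, then it has
one in `M`. -/
theorem branch_in (hM : ModelsZFC M) {T : ZFSet.{u}} (hT : T ∈ M)
    (hTs : ∀ s ∈ T, ∃ f n, s = seg f n) (hTd : ∀ f n, seg f (n + 1) ∈ T → seg f n ∈ T)
    {g : ℕ → ZFSet.{u}} (hg : ∀ n, seg g n ∈ T) :
    ∃ P : ℕ → ZFSet.{u}, (∀ n, seg P n ∈ T) ∧ ∃ p ∈ M, ∀ z, z ∈ p ↔ ∃ n, z = pair (num n) (P n) := by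
  obtain ⟨A, hA, hA1, hA2⟩ := wf_part hM hT
  obtain ⟨B, hB, hB1⟩ := hM.sep4 (P := fun t A _ _ _ => t ∉ A) (Dfn.mem 0 1).not hT hA hA hA hA
  -- the root is in `B`
  have hroot : (∅ : ZFSet.{u}) ∈ B := by
    refine (hB1 _).2 ⟨hg 0, fun hc => ?_⟩
    obtain ⟨_, a, R, h2, h3, _⟩ := (hA1 _).1 hc
    exact h2.no_branch hg a 0 h3
  -- each member of `B` has a child in `B`
  have hchild : ∀ s ∈ B, ∃ t ∈ B, Child s t := by
    intro s hs
    obtain ⟨hsT, hsA⟩ := (hB1 s).1 hs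
    by_contra hc
    push Not at hc
    apply hsA
    refine hA2 s hsT fun t ht hch => ?_
    by_contra hn
    exact hc t ((hB1 t).2 ⟨ht, hn⟩) hch
  have hdown : ∀ f n, seg f (n + 1) ∈ B → seg f n ∈ B := by
    intro f n h
    obtain ⟨h1, h2⟩ := (hB1 _).1 h
    refine (hB1 _).2 ⟨hTd f n h1, fun hc => h2 ?_⟩
    obtain ⟨_, a, R, h3, h4, hR⟩ := (hA1 _).1 hc
    obtain ⟨b, _, hb⟩ := (h3 _ _ h4).1 _ h1 (child_seg.2 ⟨rfl, fun _ _ => rfl⟩)
    exact (hA1 _).2 ⟨h1, b, R, h3, hb, hR⟩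
  have hBs : ∀ s ∈ B, ∃ f n, s = seg f n := fun s hs => hTs s ((hB1 s).1 hs).1
  -- the family of the sets of children
  have hCh : ∀ s ∈ B, ∃ y ∈ M, ∀ t, t ∈ y ↔ t ∈ B ∧ Child s t := by
    intro s hs
    exact hM.sep4 (P := fun t s _ _ _ => Child s t) (Dfn.child hM 1 0) hB
      (hM.transitive _ hB _ hs) hB hB hB
  obtain ⟨F, hF, hF1⟩ := hM.repl2
    (P := fun s z B _ => ∀ t ∈ M, (t ∈ z ↔ (t ∈ B ∧ Child s t)))
    (Dfn.all (A := fun t v => (t ∈ v 1 ↔ (t ∈ v 2 ∧ Child (v 0) t)))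
      ((Dfn.mem 0 2).iff ((Dfn.mem 0 3).and (Dfn.child hM 1 0))))
    hB hB hB (by
      intro s hs
      obtain ⟨y, hy, hy'⟩ := hCh s hs
      refine ⟨y, hy, fun y' hy'' => ?_⟩
      constructor
      · intro h
        ext t
        constructor
        · intro ht
          exact (hy' t).2 ((h t (hM.transitive _ hy'' _ ht)).1 ht)
        · intro ht
          have h2 := (hy' t).1 ht
          exact (h t (hM.transitive _ hB _ h2.1)).2 h2
      · rintro rfl t _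
        exact hy' t)
  have hF2 : ∀ z ∈ F, ∃ s ∈ B, ∀ t, t ∈ z ↔ t ∈ B ∧ Child s t := by
    intro z hz
    obtain ⟨hzM, s, hs, h⟩ := (hF1 z).1 hz
    refine ⟨s, hs, fun t => ?_⟩
    constructor
    · intro ht
      exact (h t (hM.transitive _ hzM _ ht)).1 ht
    · intro ht
      exact (h t (hM.transitive _ hB _ ht.1)).2 ht
  have hF3 : ∀ s ∈ B, ∃ z ∈ F, ∀ t, t ∈ z ↔ t ∈ B ∧ Child s t := by
    intro s hs
    obtain ⟨y, hy, hy'⟩ := hCh s hs
    exact ⟨y, (hF1 y).2 ⟨hy, s, hs, fun t _ => hy' t⟩, hy'⟩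
  obtain ⟨c, hc, hc1⟩ := hM.choice F hF (by
      intro x hx hxF
      obtain ⟨s, hs, h⟩ := hF2 x hxF
      obtain ⟨t, ht, hch⟩ := hchild s hs
      exact ⟨t, hM.transitive _ hB _ ht, (h t).2 ⟨ht, hch⟩⟩) (by
      rintro x _ y _ hxF hyF ⟨t, _, htx, hty⟩
      obtain ⟨s, hs, h⟩ := hF2 x hxF
      obtain ⟨s', hs', h'⟩ := hF2 y hyF
      obtain ⟨htB, h1⟩ := (h t).1 htx
      obtain ⟨_, h2⟩ := (h' t).1 hty
      have hss : s = s' := by
        obtain ⟨f, n, rfl⟩ := hBs s hs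
        obtain ⟨f', n', rfl⟩ := hBs s' hs'
        obtain ⟨k, m, rfl⟩ := hBs t htB
        obtain ⟨e1, e2⟩ := child_seg.1 h1
        obtain ⟨e3, e4⟩ := child_seg.1 h2
        have : n' = n := by omega
        subst this
        exact (seg_congr e2).trans (seg_congr e4).symm
      subst hss
      ext w
      rw [h, h'])
  have hc2 : ∀ s ∈ B, ∃ t ∈ B, Child s t ∧ t ∈ c ∧ ∀ t' ∈ B, Child s t' → t' ∈ c → t' = t := by
    intro s hs
    obtain ⟨z, hz, hz'⟩ := hF3 s hs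
    obtain ⟨y, hy, hy'⟩ := hc1 z (hM.transitive _ hF _ hz) hz
    obtain ⟨h1, h2⟩ := (hy' y hy).2 rfl
    obtain ⟨h3, h4⟩ := (hz' y).1 h1
    refine ⟨y, h3, h4, h2, fun t' ht' hch' htc => ?_⟩
    exact (hy' t' (hM.transitive _ hB _ ht')).1 ⟨(hz' t').2 ⟨ht', hch'⟩, htc⟩
  obtain ⟨G, hG, hG1⟩ := hM.sep4
    (P := fun s B c _ _ => ∀ r ∈ M, r ∈ B → r ⊆ s → (∃ z, z ∈ r) → r ∈ c)
    (Dfn.all (A := fun r v => r ∈ v 1 → r ⊆ v 0 → (∃ z, z ∈ r) → r ∈ v 2)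
      ((Dfn.mem 0 2).imp ((Dfn.sub hM 0 1).imp ((Dfn.nonempty hM 0).imp (Dfn.mem 0 3)))))
    hB hB hc hc hc
  have hG2 : ∀ s, s ∈ G ↔ s ∈ B ∧ ∀ r ∈ B, r ⊆ s → (∃ z, z ∈ r) → r ∈ c := by
    intro s
    rw [hG1]
    constructor
    · rintro ⟨h1, h2⟩
      exact ⟨h1, fun r hr => h2 r (hM.transitive _ hB _ hr) hr⟩
    · rintro ⟨h1, h2⟩
      exact ⟨h1, fun r _ hr => h2 r hr⟩
  have hGd : ∀ f n, seg f (n + 1) ∈ G → seg f n ∈ G := by
    intro f n h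
    obtain ⟨h1, h2⟩ := (hG2 _).1 h
    refine (hG2 _).2 ⟨hdown f n h1, fun r hr hrs => h2 r hr ?_⟩
    intro z hz
    exact mem_insert_of_mem _ (hrs hz)
  have hGd' : ∀ f n k, k ≤ n → seg f n ∈ G → seg f k ∈ G := by
    intro f n k hk h
    induction n with
    | zero =>
      have : k = 0 := by omega
      subst this; exact h
    | succ n ih =>
      rcases Nat.lt_or_ge n k with h1 | h1
      · have : k = n + 1 := by omega
        subst this; exact h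
      · exact ih h1 (hGd f n h)
  have hGc : ∀ f n, seg f (n + 1) ∈ G → seg f (n + 1) ∈ c := by
    intro f n h
    obtain ⟨h1, h2⟩ := (hG2 _).1 h
    exact h2 _ h1 (fun _ h => h) ⟨_, mem_insert _ _⟩
  have hGex : ∀ n, ∃ f, seg f n ∈ G := by
    intro n
    induction n with
    | zero =>
      refine ⟨g, (hG2 _).2 ⟨hroot, ?_⟩⟩
      rintro r _ hr ⟨z, hz⟩
      exact absurd (hr hz) (notMem_empty z)
    | succ n ih =>
      obtain ⟨f, hf⟩ := ih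
      obtain ⟨h1, h2⟩ := (hG2 _).1 hf
      obtain ⟨t, htB, hch, htc, _⟩ := hc2 _ h1
      obtain ⟨h, m, rfl⟩ := hBs t htB
      obtain ⟨rfl, e⟩ := child_seg.1 hch
      refine ⟨h, (hG2 _).2 ⟨htB, fun r hr hrs hne => ?_⟩⟩
      obtain ⟨k, j, rfl⟩ := hBs r hr
      obtain ⟨hj, hk⟩ := seg_sub hrs
      rcases Nat.lt_or_ge n j with h3 | h3
      · have : j = n + 1 := by omega
        subst this
        rw [seg_congr hk]
        exact htc
      · refine h2 _ hr ?_ hne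
        refine seg_sub_of h3 fun i hi => ?_
        rw [hk i hi, ← e i (by omega)]
  have hGun : ∀ n f f', seg f n ∈ G → seg f' n ∈ G → ∀ i < n, f i = f' i := by
    intro n
    induction n with
    | zero => intro f f' _ _ i hi; omega
    | succ n ih =>
      intro f f' h h'
      have h1 := ih f f' (hGd _ _ h) (hGd _ _ h')
      have h2 : seg f n = seg f' n := seg_congr h1
      obtain ⟨t, _, _, _, ht⟩ := hc2 _ ((hG2 _).1 (hGd _ _ h)).1
      have e1 := ht (seg f (n + 1)) ((hG2 _).1 h).1 (child_seg.2 ⟨rfl, fun _ _ => rfl⟩) (hGc _ _ h)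
      have e2 := ht (seg f' (n + 1)) ((hG2 _).1 h').1 (child_seg.2 ⟨rfl, h1⟩) (hGc _ _ h')
      exact (seg_inj (e1.trans e2.symm)).2
  choose F' hF' using hGex
  let P : ℕ → ZFSet.{u} := fun n => F' (n + 1) n
  have hP : ∀ n, seg P n ∈ G := by
    intro n
    have : seg P n = seg (F' n) n := by
      refine seg_congr fun i hi => ?_
      have h1 := hGd' (F' n) n (i + 1) (by omega) (hF' n)
      exact hGun (i + 1) _ _ (hF' (i + 1)) h1 i (by omega)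
    rw [this]
    exact hF' n
  refine ⟨P, fun n => ((hB1 _).1 ((hG2 _).1 (hP n)).1).1, ⋃₀ G, hM.sUnion_mem hG, fun z => ?_⟩
  rw [mem_sUnion]
  constructor
  · rintro ⟨s, hs, hz⟩
    obtain ⟨f, n, rfl⟩ := hBs s ((hG2 _).1 hs).1
    obtain ⟨i, hi, e⟩ := mem_seg.1 hz
    refine ⟨i, ?_⟩
    rw [e, hGun n f P hs (hP n) i hi]
  · rintro ⟨n, e⟩
    exact ⟨seg P (n + 1), hP _, mem_seg.2 ⟨n, by omega, e⟩⟩

/-- In `V` there is no sequence of covers from `M` against which `σ` misses the point `y`. -/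
theorem no_escape (hM : ModelsZFC M) (hXM : X ∈ M) (hσM : σ ∈ M) (hσ : IsWinning M X τ σ)
    {y : ZFSet.{u}} (hy : y ∈ X) {g : ℕ → ZFSet.{u}} (hg : ∀ i, IsCover M X τ (g i))
    (hgy : ∀ n W, pair (seg g (n + 1)) W ∈ σ → y ∉ W) : False := by
  have hyM : y ∈ M := hM.transitive _ hXM _ hy
  obtain ⟨T, hT, hT1⟩ := hM.sep4
    (P := fun s σ y _ _ => ((∃ z, z ∈ s) → ∃ W ∈ M, pair s W ∈ σ) ∧
      ∀ r ∈ M, ∀ W ∈ M, pair r W ∈ σ → r ⊆ s → y ∉ W)
    (((Dfn.nonempty hM 0).imp (Dfn.ex (A := fun W v => pair (v 0) W ∈ v 1)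
      (Dfn.pairMem hM 1 0 2))).and
      (Dfn.all (A := fun r v => ∀ W ∈ M, pair r W ∈ v 1 → r ⊆ v 0 → v 2 ∉ W)
        (Dfn.all (A := fun W v => pair (v 0) W ∈ v 2 → v 0 ⊆ v 1 → v 3 ∉ W)
          ((Dfn.pairMem hM 1 0 3).imp ((Dfn.sub hM 1 2).imp (Dfn.mem 4 0).not)))))
    (hM.insert_mem hM.empty_mem (hM.sUnion_mem (hM.sUnion_mem hσM))) hσM hyM hyM hyM
  have hT2 : ∀ s, s ∈ T ↔ ∃ f n, (∀ i < n, IsCover M X τ (f i)) ∧ s = seg f n ∧
      ∀ k < n, ∀ W, pair (seg f (k + 1)) W ∈ σ → y ∉ W := by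
    intro s
    rw [hT1]
    constructor
    · rintro ⟨_, h1, h2⟩
      by_cases hs : ∃ z, z ∈ s
      · obtain ⟨W, _, hW⟩ := h1 hs
        obtain ⟨f, n, W', hf, e⟩ := hσ.dom _ hW
        obtain ⟨rfl, rfl⟩ := pair_inj.1 e
        refine ⟨f, n + 1, fun i hi => hf i (by omega), rfl, fun k hk W' hW' => ?_⟩
        obtain ⟨h3, h4⟩ := hM.of_pair hσM hW'
        exact h2 _ h3 W' h4 hW' (seg_sub_of (by omega) fun _ _ => rfl)
      · have : s = ∅ := (eq_empty s).2 fun z hz => hs ⟨z, hz⟩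
        exact ⟨g, 0, fun i hi => by omega, this, fun k hk => by omega⟩
    · rintro ⟨f, n, hf, rfl, h⟩
      refine ⟨?_, ?_, ?_⟩
      · rw [mem_insert_iff]
        cases n with
        | zero => exact Or.inl rfl
        | succ n =>
          right
          obtain ⟨W, hW, _⟩ := hσ.func f n (fun i hi => hf i (by omega))
          rw [mem_sUnion]
          refine ⟨{seg f (n + 1), W}, ?_, by simp⟩
          rw [mem_sUnion]
          exact ⟨_, hW, by simp [pair]⟩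
      · rintro ⟨z, hz⟩
        cases n with
        | zero => exact absurd hz (notMem_empty z)
        | succ n =>
          obtain ⟨W, hW, _⟩ := hσ.func f n (fun i hi => hf i (by omega))
          exact ⟨W, (hM.of_pair hσM hW).2, hW⟩
      · intro r _ W _ hrW hrs
        obtain ⟨k, m, W', _, e⟩ := hσ.dom _ hrW
        obtain ⟨rfl, rfl⟩ := pair_inj.1 e
        obtain ⟨h1, h2⟩ := seg_sub hrs
        rw [seg_congr h2] at hrW
        exact h m (by omega) W hrW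
  obtain ⟨P, hP, hp⟩ := branch_in hM hT
    (fun s hs => by obtain ⟨f, n, _, e, _⟩ := (hT2 s).1 hs; exact ⟨f, n, e⟩)
    (fun f n hs => by
      obtain ⟨f', n', h1, e, h2⟩ := (hT2 _).1 hs
      obtain ⟨rfl, e2⟩ := seg_inj e
      exact (hT2 _).2 ⟨f', n, fun i hi => h1 i (by omega),
        seg_congr fun i hi => e2 i (by omega), fun k hk => h2 k (by omega)⟩)
    (g := g) (fun n => (hT2 _).2 ⟨g, n, fun i _ => hg i, rfl, fun k _ => hgy k⟩)
  have hPc : ∀ i, IsCover M X τ (P i) := by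
    intro i
    obtain ⟨f, n, h1, e, _⟩ := (hT2 _).1 (hP (i + 1))
    obtain ⟨rfl, e2⟩ := seg_inj e
    rw [e2 i (by omega)]
    exact h1 i (by omega)
  obtain ⟨n, W, hW, hyW⟩ := hσ.win P hPc hp y hy
  obtain ⟨f, m, h1, e, h2⟩ := (hT2 _).1 (hP (n + 1))
  obtain ⟨rfl, e2⟩ := seg_inj e
  rw [e] at hW
  exact h2 n (by omega) W hW hyW

end R330.Roth
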