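import Pool.Agent.R330.RothM

/-!
The strategy of player II in `V`.
-/

namespace R330.Roth

open ZFSet

universe u

variable {M : Set ZFSet.{u}} {X τ σ : ZFSet.{u}}

theorem mem_generated {O : ZFSet.{u}} :
    O ∈ generated X τ ↔ O ⊆ X ∧ ∀ x ∈ O, ∃ U ∈ τ, x ∈ U ∧ U ⊆ O := by
  rw [generated, mem_sep, mem_powerset]

theorem num_omega (n : ℕ) : num.{u} n ∈ omega.{u} := by
  induction n with
  | zero => exact omega_zero
  | succ n ih => exact omega_succ ih

/-- One step of the strategy in `V`. -/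
theorem step (hM : ModelsZFC M) (hτM : τ ∈ M) (hσM : σ ∈ M) (hσ : IsWinning M X τ σ)
    {f : ℕ → ZFSet.{u}} {n : ℕ} (hf : ∀ i < n, IsCover M X τ (f i)) {K : ZFSet.{u}}
    (hK : IsCover Set.univ X (generated X τ) K) :
    ∃ p : ZFSet.{u} × ZFSet.{u}, p.1 ∈ K ∧ IsCover M X τ p.2 ∧
      ∀ Z, pair (insert (pair (num n) p.2) (seg f n)) Z ∈ σ → Z ⊆ p.1 := by
  obtain ⟨x, hx, h⟩ := galvin hM hτM hσM hσ hf
  obtain ⟨O, hO, hxO⟩ := hK.2.2 x hx
  obtain ⟨_, h2⟩ := mem_generated.1 (hK.2.1 hO)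
  obtain ⟨U, hU, hxU, hUO⟩ := h2 x hxO
  obtain ⟨W, hW, hW'⟩ := h U hU hxU
  exact ⟨(O, W), hO, hW, fun Z hZ z hz => hUO (hW' Z hZ hz)⟩

open Classical in
/-- The choice made by player II in `V` in the state `s` (a finite sequence of covers in `M`) at
the inning `n` against the cover `K`: the answer, and the next cover in `M`. -/
noncomputable def pick (M : Set ZFSet.{u}) (X τ σ s : ZFSet.{u}) (n : ℕ) (K : ZFSet.{u}) :
    ZFSet.{u} × ZFSet.{u} :=
  if h : ∃ p : ZFSet.{u} × ZFSet.{u}, p.1 ∈ K ∧ IsCover M X τ p.2 ∧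
      ∀ Z, pair (insert (pair (num n) p.2) s) Z ∈ σ → Z ⊆ p.1 then h.choose else (∅, ∅)

/-- The state before inning `n`. -/
noncomputable def state (M : Set ZFSet.{u}) (X τ σ : ZFSet.{u}) (f : ℕ → ZFSet.{u}) : ℕ → ZFSet.{u}
  | 0 => ∅
  | n + 1 => insert (pair (num n) (pick M X τ σ (state M X τ σ f n) n (f n)).2)
      (state M X τ σ f n)

theorem state_eq (M : Set ZFSet.{u}) (X τ σ : ZFSet.{u}) (f : ℕ → ZFSet.{u}) (n : ℕ) :
    state M X τ σ f n = seg (fun n => (pick M X τ σ (state M X τ σ f n) n (f n)).2) n := by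
  induction n with
  | zero => rfl
  | succ n ih =>
    show insert _ (state M X τ σ f n) = insert _ (seg _ n)
    rw [← ih]

theorem state_congr (M : Set ZFSet.{u}) (X τ σ : ZFSet.{u}) {f f' : ℕ → ZFSet.{u}} {n : ℕ}
    (h : ∀ i < n, f i = f' i) : state M X τ σ f n = state M X τ σ f' n := by
  induction n with
  | zero => rfl
  | succ n ih =>
    show insert _ (state M X τ σ f n) = insert _ (state M X τ σ f' n)
    rw [ih fun i hi => h i (by omega), h n (by omega)]

theorem pick_spec (hM : ModelsZFC M) (hτM : τ ∈ M) (hσM : σ ∈ M) (hσ : IsWinning M X τ σ)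
    {f : ℕ → ZFSet.{u}} : ∀ n, (∀ i ≤ n, IsCover Set.univ X (generated X τ) (f i)) →
    (pick M X τ σ (state M X τ σ f n) n (f n)).1 ∈ f n ∧
    IsCover M X τ (pick M X τ σ (state M X τ σ f n) n (f n)).2 ∧
    ∀ Z, pair (insert (pair (num n) (pick M X τ σ (state M X τ σ f n) n (f n)).2)
      (state M X τ σ f n)) Z ∈ σ → Z ⊆ (pick M X τ σ (state M X τ σ f n) n (f n)).1 := by
  intro n
  induction n using Nat.strong_induction_on with
  | _ n ih =>
    intro hf
    have h1 : ∀ i < n, IsCover M X τ (pick M X τ σ (state M X τ σ f i) i (f i)).2 :=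
      fun i hi => (ih i hi fun j hj => hf j (by omega)).2.1
    have h2 := step hM hτM hσM hσ
      (f := fun n => (pick M X τ σ (state M X τ σ f n) n (f n)).2) h1 (hf n le_rfl)
    rw [← state_eq] at h2
    unfold pick
    rw [dif_pos h2]
    exact h2.choose_spec

theorem two_wins_of (hM : ModelsZFC M) (hXM : X ∈ M) (hτM : τ ∈ M) (h : TwoWins M X τ) :
    TwoWins Set.univ X (generated X τ) := by
  obtain ⟨σ, hσM, hσ⟩ := h
  let r : (ℕ → ZFSet.{u}) → ℕ → ZFSet.{u} := fun f n =>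
    (pick M X τ σ (state M X τ σ f n) n (f n)).1
  have hr : ∀ {f f' : ℕ → ZFSet.{u}} {n : ℕ}, (∀ i < n + 1, f i = f' i) → r f n = r f' n := by
    intro f f' n hff
    show (pick M X τ σ (state M X τ σ f n) n (f n)).1 = (pick M X τ σ (state M X τ σ f' n) n (f' n)).1
    rw [state_congr M X τ σ (fun i hi => hff i (by omega)), hff n (by omega)]
  let S : ZFSet.{u} := ZFSet.sep (fun z => ∃ (f : ℕ → ZFSet.{u}) (n : ℕ),
    (∀ i ≤ n, IsCover Set.univ X (generated X τ) (f i)) ∧ z = pair (seg f (n + 1)) (r f n))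
    (prod (powerset (prod omega (powerset (generated X τ)))) (generated X τ))
  have hS : ∀ z, z ∈ S ↔ ∃ (f : ℕ → ZFSet.{u}) (n : ℕ),
      (∀ i ≤ n, IsCover Set.univ X (generated X τ) (f i)) ∧ z = pair (seg f (n + 1)) (r f n) := by
    intro z
    rw [mem_sep]
    refine ⟨fun h => h.2, fun h => ⟨?_, h⟩⟩
    obtain ⟨f, n, hf, rfl⟩ := h
    rw [pair_mem_prod]
    constructor
    · rw [mem_powerset]
      intro w hw
      obtain ⟨i, hi, rfl⟩ := mem_seg.1 hw
      rw [pair_mem_prod]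
      exact ⟨num_omega i, mem_powerset.2 (hf i (by omega)).2.1⟩
    · exact (hf n le_rfl).2.1 (pick_spec hM hτM hσM hσ n hf).1
  have hS1 : ∀ {f : ℕ → ZFSet.{u}} {n : ℕ} {W : ZFSet.{u}},
      pair (seg f (n + 1)) W ∈ S → W = r f n := by
    intro f n W hW
    obtain ⟨f', n', _, e⟩ := (hS _).1 hW
    obtain ⟨e1, rfl⟩ := pair_inj.1 e
    obtain ⟨e2, e3⟩ := seg_inj e1
    have : n' = n := by omega
    subst this
    exact (hr e3).symm
  refine ⟨S, Set.mem_univ _, ?_, ?_, ?_, ?_⟩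
  · intro z hz
    obtain ⟨f, n, hf, e⟩ := (hS z).1 hz
    exact ⟨f, n, r f n, hf, e⟩
  · intro f n hf
    exact ⟨r f n, (hS _).2 ⟨f, n, hf, rfl⟩, fun W hW => hS1 hW⟩
  · intro f n W hf hW
    rw [hS1 hW]
    exact (pick_spec hM hτM hσM hσ n hf).1
  · intro f hf _ y hy
    by_contra hc
    push Not at hc
    have hc' : ∀ n, y ∉ r f n := fun n => hc n (r f n) ((hS _).2 ⟨f, n, fun i _ => hf i, rfl⟩)
    refine no_escape hM hXM hσM hσ hy
      (g := fun n => (pick M X τ σ (state M X τ σ f n) n (f n)).2)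
      (fun i => (pick_spec hM hτM hσM hσ i fun j _ => hf j).2.1) ?_
    intro n W hW hyW
    have h1 := (pick_spec hM hτM hσM hσ n fun j _ => hf j).2.2 W
    refine hc' n (h1 ?_ hyW)
    rw [← state_eq] at hW
    exact hW

end R330.Roth
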